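import Mathlib

/-!
# Irreducibility by the Newton polygon at a place (helper888)
-/

set_option autoImplicit false
set_option linter.all false

namespace Pool.Agent.Y888.FT

open Polynomial WithZero

variable {k : Type} [Field k] (v : Valuation k (WithZero (Multiplicative ℤ)))

/-- the weight of the coefficient of `x ^ j` -/
noncomputable def wt (m : ℕ) (γ : WithZero (Multiplicative ℤ)) (P : k[X]) (j : ℕ) :
    WithZero (Multiplicative ℤ) := v (P.coeff j) ^ m * γ ^ j

/-- the weight -/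
noncomputable def W (m : ℕ) (γ : WithZero (Multiplicative ℤ)) (P : k[X]) :
    WithZero (Multiplicative ℤ) := P.support.sup (wt v m γ P)

variable {v}

theorem wt_le {m : ℕ} {γ : WithZero (Multiplicative ℤ)} {P : k[X]} {j : ℕ} (h : P.coeff j ≠ 0) :
    wt v m γ P j ≤ W v m γ P :=
  Finset.le_sup (f := wt v m γ P) (mem_support_iff.2 h)

theorem exists_max (m : ℕ) (γ : WithZero (Multiplicative ℤ)) {P : k[X]} (hP : P ≠ 0) :
    ∃ j, P.coeff j ≠ 0 ∧ wt v m γ P j = W v m γ P ∧
      ∀ i, j < i → P.coeff i ≠ 0 → wt v m γ P i < W v m γ P := by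
  classical
  obtain ⟨j1, hj1, e1⟩ := Finset.exists_mem_eq_sup P.support (support_nonempty.2 hP) (wt v m γ P)
  have hne : (P.support.filter fun j => wt v m γ P j = W v m γ P).Nonempty :=
    ⟨j1, Finset.mem_filter.2 ⟨hj1, e1.symm⟩⟩
  obtain ⟨hm1, hm2⟩ := Finset.mem_filter.1 (Finset.max'_mem _ hne)
  refine ⟨_, mem_support_iff.1 hm1, hm2, fun i hi h0 => ?_⟩
  rcases (wt_le (v := v) (m := m) (γ := γ) h0).lt_or_eq with h | h
  · exact h
  · have hmem : i ∈ P.support.filter fun j => wt v m γ P j = W v m γ P :=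
      Finset.mem_filter.2 ⟨mem_support_iff.2 h0, h⟩
    exact absurd (Finset.le_max' _ i hmem) (not_le.2 hi)

theorem exists_coeff {m : ℕ} (hm : 0 < m) {γ : WithZero (Multiplicative ℤ)} (hγ : γ ≠ 0)
    {P Q : k[X]} (hP : P ≠ 0) (hQ : Q ≠ 0) :
    ∃ i, (P * Q).coeff i ≠ 0 ∧ W v m γ P * W v m γ Q ≤ wt v m γ (P * Q) i := by
  classical
  obtain ⟨a, ha0, ha1, ha2⟩ := exists_max (v := v) m γ hP
  obtain ⟨b, hb0, hb1, hb2⟩ := exists_max (v := v) m γ hQ
  have hva : v (P.coeff a) ≠ 0 := (v.ne_zero_iff).2 ha0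
  have hvb : v (Q.coeff b) ≠ 0 := (v.ne_zero_iff).2 hb0
  have hWP : 0 < W v m γ P := by
    rw [← ha1]
    unfold wt
    exact zero_lt_iff.2 (mul_ne_zero (pow_ne_zero _ hva) (pow_ne_zero _ hγ))
  have hWQ : 0 < W v m γ Q := by
    rw [← hb1]
    unfold wt
    exact zero_lt_iff.2 (mul_ne_zero (pow_ne_zero _ hvb) (pow_ne_zero _ hγ))
  have hterm : ∀ x ∈ (Finset.HasAntidiagonal.antidiagonal (a + b)).erase (a, b),
      v (P.coeff x.1 * Q.coeff x.2) < v (P.coeff a * Q.coeff b) := by
    rintro ⟨i, j⟩ hij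
    rw [Finset.mem_erase, Finset.HasAntidiagonal.mem_antidiagonal] at hij
    obtain ⟨hne, hij⟩ := hij
    simp only at hij ⊢
    rw [map_mul, map_mul]
    have hpos : 0 < v (P.coeff a) * v (Q.coeff b) := zero_lt_iff.2 (mul_ne_zero hva hvb)
    by_cases h1 : P.coeff i = 0
    · rw [h1, map_zero, zero_mul]
      exact hpos
    by_cases h2 : Q.coeff j = 0
    · rw [h2, map_zero, mul_zero]
      exact hpos
    have w1 := wt_le (v := v) (m := m) (γ := γ) h1
    have w2 := wt_le (v := v) (m := m) (γ := γ) h2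
    have hlt : wt v m γ P i * wt v m γ Q j < W v m γ P * W v m γ Q := by
      rcases lt_trichotomy i a with h | h | h
      · have h3 := hb2 j (by omega) h2
        calc wt v m γ P i * wt v m γ Q j ≤ W v m γ P * wt v m γ Q j :=
              mul_le_mul_of_nonneg_right w1 zero_le
          _ < W v m γ P * W v m γ Q := mul_lt_mul_of_pos_left h3 hWP
      · exact absurd (by rw [Prod.mk.injEq]; omega) hne
      · have h3 := ha2 i h h1
        calc wt v m γ P i * wt v m γ Q j ≤ wt v m γ P i * W v m γ Q :=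
              mul_le_mul_of_nonneg_left w2 zero_le
          _ < W v m γ P * W v m γ Q := mul_lt_mul_of_pos_right h3 hWQ
    rw [← ha1, ← hb1] at hlt
    unfold wt at hlt
    have e : γ ^ i * γ ^ j = γ ^ (a + b) := by rw [← pow_add, hij]
    have e1 : v (P.coeff i) ^ m * γ ^ i * (v (Q.coeff j) ^ m * γ ^ j) =
        (v (P.coeff i) * v (Q.coeff j)) ^ m * γ ^ (a + b) := by
      rw [← e, mul_pow, mul_mul_mul_comm]
    have e2 : v (P.coeff a) ^ m * γ ^ a * (v (Q.coeff b) ^ m * γ ^ b) =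
        (v (P.coeff a) * v (Q.coeff b)) ^ m * γ ^ (a + b) := by
      rw [pow_add, mul_pow, mul_mul_mul_comm]
    rw [e1, e2] at hlt
    have h4 := lt_of_mul_lt_mul_right hlt zero_le
    by_contra h5
    rw [not_lt] at h5
    exact absurd (pow_le_pow_left₀ zero_le h5 m) (not_le.2 h4)
  have hc : v ((P * Q).coeff (a + b)) = v (P.coeff a * Q.coeff b) := by
    rw [coeff_mul, ← Finset.add_sum_erase _ _ (a := (a, b)) (by simp)]
    apply Valuation.map_add_eq_of_lt_left
    exact Valuation.map_sum_lt v ((v.ne_zero_iff).2 (mul_ne_zero ha0 hb0)) hterm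
  refine ⟨a + b, ?_, ?_⟩
  · intro h
    rw [h, map_zero, map_mul] at hc
    exact mul_ne_zero hva hvb hc.symm
  · rw [← ha1, ← hb1]
    unfold wt
    rw [hc, map_mul, mul_pow, pow_add, mul_mul_mul_comm]

/-- Newton polygon criterion: a polygon with one side from `(0, q)` to `(m, 0)`, `gcd (q, m) = 1`. -/
theorem irr_of_np {f : k[X]} {q : ℕ} (hf : f.Monic) (hco : q.Coprime f.natDegree) (hq : 0 < q)
    (h0 : v (f.coeff 0) = exp (-(q : ℤ)))
    (hj : ∀ j ≤ f.natDegree, j ≠ 0 → v (f.coeff j) ≤ exp (-(q : ℤ)) ^ (f.natDegree - j)) :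
    Irreducible f := by
  set m := f.natDegree with hm
  set γ : WithZero (Multiplicative ℤ) := exp (-(q : ℤ)) with hγ
  have hγ0 : γ ≠ 0 := exp_ne_zero
  have hγ1 : γ < 1 := by
    rw [← exp_zero, hγ, exp_lt_exp]
    omega
  have hm0 : 0 < m := by
    rcases Nat.eq_zero_or_pos m with h | h
    · have h1 := hf.natDegree_eq_zero.1 (hm ▸ h)
      rw [h1, coeff_one_zero, map_one] at h0
      exact absurd h0.symm (ne_of_lt hγ1)
    · exact h
  have hne : f ≠ 1 := fun h => by rw [hm, h, natDegree_one] at hm0; exact lt_irrefl _ hm0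
  rw [hf.irreducible_iff_natDegree]
  refine ⟨hne, fun P Q hP hQ hPQ => ?_⟩
  by_contra hcon
  push Not at hcon
  obtain ⟨hp, hq'⟩ := hcon
  have hdeg : P.natDegree + Q.natDegree = m := by
    rw [hm, ← hPQ, hP.natDegree_mul hQ]
  obtain ⟨i, hi0, hi1⟩ := exists_coeff (v := v) hm0 hγ0 hP.ne_zero hQ.ne_zero
  rw [hPQ] at hi0 hi1
  have hin : i ≤ m := le_natDegree_of_ne_zero hi0
  have hW : W v m γ P * W v m γ Q ≤ γ ^ m := by
    refine hi1.trans ?_
    unfold wt
    rcases Nat.eq_zero_or_pos i with hi00 | hipos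
    · rw [hi00, h0, pow_zero, mul_one]
    rcases hin.lt_or_eq with h | h
    · calc v (f.coeff i) ^ m * γ ^ i ≤ (γ ^ (m - i)) ^ m * γ ^ i :=
            mul_le_mul_of_nonneg_right (pow_le_pow_left₀ zero_le (hj i hin hipos.ne') m) zero_le
        _ ≤ γ ^ (m - i) * γ ^ i := by
            refine mul_le_mul_of_nonneg_right ?_ zero_le
            exact pow_le_of_le_one zero_le (pow_le_one₀ zero_le hγ1.le) hm0.ne'
        _ = γ ^ m := by rw [← pow_add, Nat.sub_add_cancel hin]
    · have h1 := hj i hin hipos.ne'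
      rw [h, Nat.sub_self, pow_zero] at h1
      rw [h]
      calc v (f.coeff m) ^ m * γ ^ m ≤ 1 * γ ^ m :=
            mul_le_mul_of_nonneg_right (pow_le_one₀ zero_le h1) zero_le
        _ = γ ^ m := one_mul _
  have hWP : γ ^ P.natDegree ≤ W v m γ P := by
    have := wt_le (v := v) (m := m) (γ := γ) (P := P) (j := P.natDegree) (by
      rw [hP.coeff_natDegree]; exact one_ne_zero)
    unfold wt at this
    rwa [hP.coeff_natDegree, map_one, one_pow, one_mul] at this
  have hWQ : γ ^ Q.natDegree ≤ W v m γ Q := by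
    have := wt_le (v := v) (m := m) (γ := γ) (P := Q) (j := Q.natDegree) (by
      rw [hQ.coeff_natDegree]; exact one_ne_zero)
    unfold wt at this
    rwa [hQ.coeff_natDegree, map_one, one_pow, one_mul] at this
  have hc0 : f.coeff 0 = P.coeff 0 * Q.coeff 0 := by rw [← hPQ, mul_coeff_zero]
  have hf0 : f.coeff 0 ≠ 0 := fun h => by
    rw [h, map_zero] at h0
    exact hγ0 h0.symm
  have hP0 : P.coeff 0 ≠ 0 := fun h => hf0 (by rw [hc0, h, zero_mul])
  have hQ0 : Q.coeff 0 ≠ 0 := fun h => hf0 (by rw [hc0, h, mul_zero])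
  have hWP0 := wt_le (v := v) (m := m) (γ := γ) hP0
  have hWQ0 := wt_le (v := v) (m := m) (γ := γ) hQ0
  unfold wt at hWP0 hWQ0
  rw [pow_zero, mul_one] at hWP0 hWQ0
  have hvv : v (P.coeff 0) * v (Q.coeff 0) = γ := by rw [← map_mul, ← hc0, h0]
  have hpd : ∀ n, 0 < γ ^ n := fun n => zero_lt_iff.2 (pow_ne_zero _ hγ0)
  -- `W P = γ ^ deg P`
  have hWPe : W v m γ P ≤ γ ^ P.natDegree := by
    by_contra h
    rw [not_le] at h
    have h1 : γ ^ m < W v m γ P * W v m γ Q := by
      calc γ ^ m = γ ^ P.natDegree * γ ^ Q.natDegree := by rw [← pow_add, hdeg]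
        _ < W v m γ P * γ ^ Q.natDegree := mul_lt_mul_of_pos_right h (hpd _)
        _ ≤ W v m γ P * W v m γ Q := mul_le_mul_of_nonneg_left hWQ zero_le
    exact absurd hW (not_le.2 h1)
  have hWQe : W v m γ Q ≤ γ ^ Q.natDegree := by
    by_contra h
    rw [not_le] at h
    have h1 : γ ^ m < W v m γ P * W v m γ Q := by
      calc γ ^ m = γ ^ P.natDegree * γ ^ Q.natDegree := by rw [← pow_add, hdeg]
        _ < γ ^ P.natDegree * W v m γ Q := mul_lt_mul_of_pos_left h (hpd _)
        _ ≤ W v m γ P * W v m γ Q := mul_le_mul_of_nonneg_right hWP zero_le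
    exact absurd hW (not_le.2 h1)
  have h1 : v (P.coeff 0) ^ m ≤ γ ^ P.natDegree := hWP0.trans hWPe
  have h2 : v (Q.coeff 0) ^ m ≤ γ ^ Q.natDegree := hWQ0.trans hWQe
  have h3 : v (P.coeff 0) ^ m = γ ^ P.natDegree := by
    refine le_antisymm h1 ?_
    by_contra h
    rw [not_le] at h
    have h4 : γ ^ m < γ ^ m := by
      calc γ ^ m = v (P.coeff 0) ^ m * v (Q.coeff 0) ^ m := by rw [← mul_pow, hvv]
        _ ≤ v (P.coeff 0) ^ m * γ ^ Q.natDegree := mul_le_mul_of_nonneg_left h2 zero_le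
        _ < γ ^ P.natDegree * γ ^ Q.natDegree := mul_lt_mul_of_pos_right h (hpd _)
        _ = γ ^ m := by rw [← pow_add, hdeg]
    exact lt_irrefl _ h4
  have hvP0 : v (P.coeff 0) ≠ 0 := (v.ne_zero_iff).2 hP0
  have h5 := congrArg log h3
  rw [log_pow, log_pow, hγ, log_exp, nsmul_eq_mul, nsmul_eq_mul] at h5
  have h6 : (m : ℤ) ∣ (q : ℤ) * P.natDegree := ⟨-log (v (P.coeff 0)), by linarith⟩
  have h7 : m ∣ q * P.natDegree := by exact_mod_cast h6
  have h8 : m ∣ P.natDegree := hco.symm.dvd_of_dvd_mul_left h7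
  have h9 := Nat.le_of_dvd (Nat.pos_of_ne_zero hp) h8
  omega

/-- The coefficients of a product of linear factors. -/
theorem coeff_prod {m : ℕ} {γ : WithZero (Multiplicative ℤ)} (hγ : γ ≤ 1) (r : Fin m → k)
    (hr : ∀ i, v (r i) ≤ γ) (s : Finset (Fin m)) (j : ℕ) :
    v ((∏ i ∈ s, (X - C (r i))).coeff j) * γ ^ j ≤ γ ^ s.card := by
  classical
  induction s using Finset.induction_on generalizing j with
  | empty =>
    rw [Finset.prod_empty, Finset.card_empty, pow_zero]
    rw [coeff_one]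
    split_ifs with h
    · rw [h, map_one, pow_zero, one_mul]
    · rw [map_zero, zero_mul]
      exact zero_le
  | insert i s hi ih =>
    rw [Finset.prod_insert hi, Finset.card_insert_of_notMem hi]
    set F := ∏ i ∈ s, (X - C (r i)) with hF
    have h1 : ∀ j, v (r i * F.coeff j) * γ ^ j ≤ γ ^ (s.card + 1) := by
      intro j
      rw [map_mul, pow_succ', mul_assoc]
      exact mul_le_mul' (hr i) (ih j)
    cases j with
    | zero =>
      rw [sub_mul, coeff_sub, mul_coeff_zero, coeff_X_zero, zero_mul, coeff_C_mul, zero_sub,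
        Valuation.map_neg]
      exact h1 0
    | succ j =>
      rw [sub_mul, coeff_sub, coeff_X_mul, coeff_C_mul]
      have h2 : v (F.coeff j - r i * F.coeff (j + 1)) ≤
          max (v (F.coeff j)) (v (r i * F.coeff (j + 1))) := Valuation.map_sub _ _ _
      rcases le_total (v (F.coeff j)) (v (r i * F.coeff (j + 1))) with h3 | h3
      · rw [max_eq_right h3] at h2
        exact (mul_le_mul_of_nonneg_right h2 zero_le).trans (h1 _)
      · rw [max_eq_left h3] at h2
        refine (mul_le_mul_of_nonneg_right h2 zero_le).trans ?_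
        rw [pow_succ, pow_succ, ← mul_assoc]
        exact mul_le_mul_of_nonneg_right (ih j) zero_le

end Pool.Agent.Y888.FT
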