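import Mathlib

/-!
# Roots near a root of the approximated polynomial, and `ℓ`-th powers (helper888)
-/

set_option autoImplicit false
set_option linter.all false

namespace Pool.Agent.Y888.FT

open Polynomial WithZero

/-! ### Divisors of a power of a product of linear factors -/

section fac

variable {k : Type} [Field k] {m : ℕ}

theorem fac (r : Fin m → k) (N : ℕ) (A : k[X]) (hA : A ∣ (∏ j, (X - C (r j))) ^ N) :
    ∃ (c' : k) (e : Fin m → ℕ), c' ≠ 0 ∧ A = C c' * ∏ j, (X - C (r j)) ^ e j := by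
  classical
  have hg0 : (∏ j, (X - C (r j))) ^ N ≠ 0 :=
    pow_ne_zero _ (Finset.prod_ne_zero_iff.2 fun j _ => X_sub_C_ne_zero _)
  induction hd : A.natDegree using Nat.strong_induction_on generalizing A with
  | _ n ih =>
    have hA0 : A ≠ 0 := fun h => hg0 (by rw [h, zero_dvd_iff] at hA; exact hA)
    by_cases hu : IsUnit A
    · obtain ⟨c, hc, rfl⟩ := Polynomial.isUnit_iff.1 hu
      exact ⟨c, fun _ => 0, hc.ne_zero, by simp⟩
    · obtain ⟨p, hp, hpA⟩ := WfDvdMonoid.exists_irreducible_factor hu hA0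
      have hpr : Prime p := hp.prime
      have h1 : p ∣ ∏ j, (X - C (r j)) := hpr.dvd_of_dvd_pow (hpA.trans hA)
      obtain ⟨j, _, hj⟩ := hpr.exists_mem_finset_dvd h1
      have h2 : Associated p (X - C (r j)) := hp.associated_of_dvd (irreducible_X_sub_C _) hj
      obtain ⟨A', rfl⟩ := h2.symm.dvd.trans hpA
      have hA'0 : A' ≠ 0 := right_ne_zero_of_mul hA0
      have hdeg : ((X - C (r j)) * A').natDegree = 1 + A'.natDegree := by
        rw [natDegree_mul (X_sub_C_ne_zero _) hA'0, natDegree_X_sub_C]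
      obtain ⟨c', e, hc', he⟩ := ih A'.natDegree (by omega) A' ((dvd_mul_left _ _).trans hA) rfl
      refine ⟨c', e + Pi.single j 1, hc', ?_⟩
      conv_lhs => rw [he]
      have h3 : ∏ i, (X - C (r i)) ^ (e + Pi.single j 1 : Fin m → ℕ) i =
          (∏ i, (X - C (r i)) ^ e i) * (X - C (r j)) := by
        simp only [Pi.add_apply, pow_add, Finset.prod_mul_distrib]
        congr 1
        rw [Finset.prod_eq_single j]
        · rw [Pi.single_eq_same, pow_one]
        · intro b _ hb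
          rw [Pi.single_eq_of_ne hb, pow_zero]
        · intro h
          exact absurd (Finset.mem_univ j) h
      rw [h3]
      ring

theorem triv {ℓ : ℕ} (hm : 0 < m) (r : Fin m → k) (c' : k) (hc : c' ≠ 0) (e : Fin m → ℕ)
    (he : ∀ i j, i ≠ j → (ℓ : ℤ) ∣ (e i : ℤ) - e j) :
    ∃ (c : k) (j : ℕ) (w : k[X]), c ≠ 0 ∧
      C c' * ∏ j, (X - C (r j)) ^ e j = C c * (∏ j, (X - C (r j))) ^ j * w ^ ℓ := by
  classical
  haveI : Nonempty (Fin m) := ⟨⟨0, hm⟩⟩
  obtain ⟨j0, hj0⟩ := Finite.exists_min e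
  have h1 : ∀ j, ∃ f : ℕ, e j = e j0 + ℓ * f := by
    intro j
    by_cases hj : j = j0
    · exact ⟨0, by rw [hj]; omega⟩
    · obtain ⟨t, ht⟩ := he j j0 hj
      have h2 : (ℓ : ℤ) ∣ ((e j - e j0 : ℕ) : ℤ) := by
        rw [Nat.cast_sub (hj0 j)]
        exact ⟨t, ht⟩
      obtain ⟨f, hf⟩ := Int.natCast_dvd_natCast.1 h2
      exact ⟨f, by have := hj0 j; omega⟩
  choose f hf using h1
  refine ⟨c', e j0, ∏ j, (X - C (r j)) ^ f j, hc, ?_⟩
  rw [mul_assoc, ← Finset.prod_pow, ← Finset.prod_pow, ← Finset.prod_mul_distrib]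
  congr 1
  refine Finset.prod_congr rfl fun j _ => ?_
  rw [← pow_mul, ← pow_add, hf j, mul_comm (f j) ℓ]

theorem ord_eq {p U V : k[X]} (hp : Prime p) (hU : ¬ p ∣ U) (hV : ¬ p ∣ V) {a e : ℕ}
    (h : p ^ (e + 1) ∣ p ^ a * U - p ^ e * V) : a = e ∧ p ∣ U - V := by
  have hp0 : p ≠ 0 := hp.ne_zero
  rcases lt_trichotomy a e with h1 | h1 | h1
  · exfalso
    have h2 : p ^ (a + 1) ∣ p ^ a * U - p ^ e * V := (pow_dvd_pow p (by omega)).trans h
    have h3 : p ^ (a + 1) ∣ p ^ e * V := Dvd.dvd.mul_right (pow_dvd_pow p (by omega)) _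
    have h4 : p ^ (a + 1) ∣ p ^ a * U := by
      have := dvd_add h2 h3
      rwa [sub_add_cancel] at this
    rw [pow_succ] at h4
    exact hU ((mul_dvd_mul_iff_left (pow_ne_zero a hp0)).1 h4)
  · subst h1
    refine ⟨rfl, ?_⟩
    rw [← mul_sub, pow_succ] at h
    exact (mul_dvd_mul_iff_left (pow_ne_zero a hp0)).1 h
  · exfalso
    have h3 : p ^ (e + 1) ∣ p ^ a * U := Dvd.dvd.mul_right (pow_dvd_pow p (by omega)) _
    have h4 : p ^ (e + 1) ∣ p ^ e * V := by
      have := dvd_sub h3 h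
      rwa [sub_sub_cancel] at this
    rw [pow_succ] at h4
    exact hV ((mul_dvd_mul_iff_left (pow_ne_zero e hp0)).1 h4)

end fac

/-! ### Approximation of a root -/

section near

variable {k : Type} [Field k] {v : Valuation k (WithZero (Multiplicative ℤ))} {m : ℕ}

theorem prod_le_one (s : Finset (Fin m)) (f : Fin m → k) (hf : ∀ a, v (f a) ≤ 1) :
    v (∏ a ∈ s, f a) ≤ 1 := by
  rw [map_prod]
  exact Finset.prod_le_one' fun a _ => hf a

theorem prod_diff (s : Finset (Fin m)) (f f' : Fin m → k) (hf : ∀ a, v (f a) ≤ 1)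
    (hf' : ∀ a, v (f' a) ≤ 1) {γ : WithZero (Multiplicative ℤ)} (h : ∀ a, v (f a - f' a) ≤ γ) :
    v (∏ a ∈ s, f a - ∏ a ∈ s, f' a) ≤ γ := by
  classical
  induction s using Finset.induction_on with
  | empty =>
    rw [Finset.prod_empty, Finset.prod_empty, sub_self, map_zero]
    exact zero_le
  | insert i s hi ih =>
    rw [Finset.prod_insert hi, Finset.prod_insert hi]
    have e : f i * ∏ a ∈ s, f a - f' i * ∏ a ∈ s, f' a =
        f i * (∏ a ∈ s, f a - ∏ a ∈ s, f' a) + (f i - f' i) * ∏ a ∈ s, f' a := by ring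
    rw [e]
    refine (Valuation.map_add _ _ _).trans (max_le ?_ ?_)
    · rw [map_mul]
      calc v (f i) * v (∏ a ∈ s, f a - ∏ a ∈ s, f' a) ≤ 1 * γ := mul_le_mul' (hf i) ih
        _ = γ := one_mul _
    · rw [map_mul]
      calc v (f i - f' i) * v (∏ a ∈ s, f' a) ≤ γ * 1 := mul_le_mul' (h i) (prod_le_one s f' hf')
        _ = γ := mul_one _

variable (r : Fin m → k) (i : Fin m) (hr : ∀ a, v (r a) ≤ 1)
  (hi : ∀ a, a ≠ i → exp (-1 : ℤ) ≤ v (r i - r a))

include hi in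
theorem near {x : k} (hx : v (x - r i) ≤ exp (-2 : ℤ)) (a : Fin m) (ha : a ≠ i) :
    v (x - r a) = v (r i - r a) := by
  have h1 : x - r a = (x - r i) + (r i - r a) := by ring
  rw [h1]
  apply Valuation.map_add_eq_of_lt_right
  refine hx.trans_lt (lt_of_lt_of_le ?_ (hi a ha))
  rw [exp_lt_exp]
  norm_num

include hi in
theorem nearM {x : k} (hx : v (x - r i) ≤ exp (-2 : ℤ)) :
    v (∏ a ∈ Finset.univ.erase i, (x - r a)) = v (∏ a ∈ Finset.univ.erase i, (r i - r a)) := by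
  rw [map_prod, map_prod]
  exact Finset.prod_congr rfl fun a ha => near r i hi hx a (Finset.ne_of_mem_erase ha)

theorem split_prod (x : k) :
    ∏ a, (x - r a) = (x - r i) * ∏ a ∈ Finset.univ.erase i, (x - r a) :=
  (Finset.mul_prod_erase Finset.univ _ (Finset.mem_univ i)).symm

include hr hi in
/-- approximate roots of `g + B` near `r i` -/
theorem approx (hκ : exp (-1 : ℤ) ≤ v (∏ a ∈ Finset.univ.erase i, (r i - r a)))
    {B : k} (hB : v B ≤ exp (-4 : ℤ)) (N : ℕ) :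
    ∃ x : k, v x ≤ 1 ∧ v (x - r i) ≤ exp (-2 : ℤ) ∧
      v (∏ a, (x - r a) + B) ≤ exp (-(N : ℤ)) := by
  induction N with
  | zero =>
    refine ⟨r i, hr i, by rw [sub_self, map_zero]; exact zero_le, ?_⟩
    rw [split_prod r i, sub_self, zero_mul, zero_add]
    refine hB.trans ?_
    rw [exp_le_exp]
    norm_num
  | succ N ih =>
    obtain ⟨x, hx1, hx2, hx3⟩ := ih
    set M := ∏ a ∈ Finset.univ.erase i, (x - r a) with hM
    have hvM : v M = v (∏ a ∈ Finset.univ.erase i, (r i - r a)) := nearM r i hi hx2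
    have hvM1 : exp (-1 : ℤ) ≤ v M := by rw [hvM]; exact hκ
    have hvM0 : v M ≠ 0 := (lt_of_lt_of_le exp_pos hvM1).ne'
    have hM0 : M ≠ 0 := (v.ne_zero_iff).1 hvM0
    have hinv : (v M)⁻¹ ≤ exp (1 : ℤ) := by
      have : exp (1 : ℤ) = (exp (-1 : ℤ))⁻¹ := by rw [← exp_neg]; norm_num
      rw [this]
      exact inv_anti₀ exp_pos hvM1
    set x' := r i - B / M with hx'
    have h1 : x' - r i = -(B / M) := by rw [hx']; ring
    have h2 : v (x' - r i) ≤ exp (-3 : ℤ) := by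
      rw [h1, Valuation.map_neg, div_eq_mul_inv, map_mul, map_inv₀]
      calc v B * (v M)⁻¹ ≤ exp (-4 : ℤ) * exp (1 : ℤ) := mul_le_mul' hB hinv
        _ = exp (-3 : ℤ) := by rw [← exp_add]; norm_num
    have h3 : v (x' - r i) ≤ exp (-2 : ℤ) := h2.trans (by rw [exp_le_exp]; norm_num)
    have h4 : v x' ≤ 1 := by
      have e : x' = (x' - r i) + r i := by ring
      rw [e]
      refine (Valuation.map_add _ _ _).trans (max_le (h3.trans ?_) (hr i))
      rw [← exp_zero, exp_le_exp]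
      norm_num
    refine ⟨x', h4, h3, ?_⟩
    set M' := ∏ a ∈ Finset.univ.erase i, (x' - r a) with hM'
    have e1 : ∏ a, (x' - r a) + B = B * (M - M') / M := by
      rw [split_prod r i, ← hM', h1]
      field_simp
      ring
    have e2 : x - x' = (∏ a, (x - r a) + B) / M := by
      rw [split_prod r i, ← hM, hx']
      field_simp
      ring
    have hle : ∀ y : k, v y ≤ 1 → ∀ a, v (y - r a) ≤ 1 := fun y hy a =>
      (Valuation.map_sub _ _ _).trans (max_le hy (hr a))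
    have h5 : v (M - M') ≤ v (x - x') := by
      refine prod_diff _ _ _ (hle x hx1) (hle x' h4) fun a => ?_
      rw [sub_sub_sub_cancel_right]
    rw [e1, div_eq_mul_inv, map_mul, map_mul, map_inv₀]
    rw [e2, div_eq_mul_inv, map_mul, map_inv₀] at h5
    calc v B * v (M - M') * (v M)⁻¹
        ≤ exp (-4 : ℤ) * (exp (-(N : ℤ)) * exp (1 : ℤ)) * exp (1 : ℤ) :=
          mul_le_mul' (mul_le_mul' hB (h5.trans (mul_le_mul' hx3 hinv))) hinv
      _ = exp (-4 + (-(N : ℤ) + 1) + 1) := by rw [exp_add, exp_add, exp_add]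
      _ ≤ exp (-((N + 1 : ℕ) : ℤ)) := by
          rw [exp_le_exp]
          push_cast
          omega

theorem bounded (T : k[X]) : ∃ γ : WithZero (Multiplicative ℤ), γ ≠ 0 ∧
    ∀ x : k, v x ≤ 1 → v (T.eval x) ≤ γ := by
  classical
  refine ⟨max 1 (T.support.sup fun j => v (T.coeff j)), ?_, fun x hx => ?_⟩
  · exact (lt_of_lt_of_le zero_lt_one (le_max_left _ _)).ne'
  · rw [eval_eq_sum, sum_def]
    refine Valuation.map_sum_le v fun j hj => ?_
    rw [map_mul, map_pow]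
    calc v (T.coeff j) * v x ^ j ≤ v (T.coeff j) * 1 :=
          mul_le_mul' le_rfl (pow_le_one₀ zero_le hx)
      _ = v (T.coeff j) := mul_one _
      _ ≤ T.support.sup (fun j => v (T.coeff j)) :=
          Finset.le_sup (f := fun j => v (T.coeff j)) hj
      _ ≤ _ := le_max_right _ _

include hr hi in
theorem key (hκ : exp (-1 : ℤ) ≤ v (∏ a ∈ Finset.univ.erase i, (r i - r a)))
    {B : k} (hB : v B ≤ exp (-4 : ℤ)) (hB0 : B ≠ 0) {ℓ : ℕ} (c c' : k) (hc : c ≠ 0) (hc' : c' ≠ 0)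
    (e : Fin m → ℕ) (w : k[X])
    (hd : (∏ j, (X - C (r j))) + C B ∣ C c * (C c' * ∏ j, (X - C (r j)) ^ e j) - w ^ ℓ) :
    ∃ y : k, v (c * c') * (v B * (v (∏ a ∈ Finset.univ.erase i, (r i - r a)))⁻¹) ^ e i *
      ∏ a ∈ Finset.univ.erase i, v (r i - r a) ^ e a = v y ^ ℓ := by
  classical
  obtain ⟨T, hT⟩ := hd
  obtain ⟨γ, hγ0, hγ⟩ := bounded (v := v) T
  set κ := v (∏ a ∈ Finset.univ.erase i, (r i - r a)) with hκd
  set V0 := v (c * c') * (v B * κ⁻¹) ^ e i * ∏ a ∈ Finset.univ.erase i, v (r i - r a) ^ e a with hV0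
  have hκ0 : κ ≠ 0 := (lt_of_lt_of_le exp_pos hκ).ne'
  have hvB0 : v B ≠ 0 := (v.ne_zero_iff).2 hB0
  have hV00 : V0 ≠ 0 := by
    rw [hV0]
    refine mul_ne_zero (mul_ne_zero ((v.ne_zero_iff).2 (mul_ne_zero hc hc'))
      (pow_ne_zero _ (mul_ne_zero hvB0 (inv_ne_zero hκ0)))) ?_
    refine Finset.prod_ne_zero_iff.2 fun a ha => pow_ne_zero _ ?_
    exact (lt_of_lt_of_le exp_pos (hi a (Finset.ne_of_mem_erase ha))).ne'
  obtain ⟨N, hN1, hN2⟩ := exists_exp_neg_natCast_lt_and_lt (mul_ne_zero hV00 (inv_ne_zero hγ0)) hvB0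
  obtain ⟨x, hx1, hx2, hx3⟩ := approx r i hr hi hκ hB N
  refine ⟨w.eval x, ?_⟩
  -- the value of `g` at `x`
  have hg : v (∏ a, (x - r a)) = v B := by
    have h1 : ∏ a, (x - r a) = (∏ a, (x - r a) + B) + (-B) := by ring
    rw [h1, Valuation.map_add_eq_of_lt_right, Valuation.map_neg]
    rw [Valuation.map_neg]
    exact lt_of_le_of_lt hx3 hN2
  have hxi : v (x - r i) = v B * κ⁻¹ := by
    rw [split_prod r i, map_mul, nearM r i hi hx2, ← hκd] at hg
    rw [← hg, mul_assoc, mul_inv_cancel₀ hκ0, mul_one]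
  have hA : v ((C c * (C c' * ∏ j, (X - C (r j)) ^ e j)).eval x) = V0 := by
    rw [eval_mul, eval_mul, eval_C, eval_C, eval_prod]
    simp only [eval_pow, eval_sub, eval_X, eval_C]
    rw [← mul_assoc, map_mul, hV0, mul_assoc]
    congr 1
    rw [← Finset.mul_prod_erase Finset.univ _ (Finset.mem_univ i), map_mul, map_pow, hxi, map_prod]
    congr 1
    refine Finset.prod_congr rfl fun a ha => ?_
    rw [map_pow, near r i hi hx2 a (Finset.ne_of_mem_erase ha)]
  have hG : v (((∏ j, (X - C (r j))) + C B).eval x) ≤ exp (-(N : ℤ)) := by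
    rw [eval_add, eval_C, eval_prod]
    simp only [eval_sub, eval_X, eval_C]
    exact hx3
  have hdiff : v ((C c * (C c' * ∏ j, (X - C (r j)) ^ e j)).eval x - (w.eval x) ^ ℓ) < V0 := by
    have h2 := congrArg (fun P => v (eval x P)) hT
    rw [eval_sub, eval_pow] at h2
    rw [h2, eval_mul, map_mul]
    calc v (eval x (∏ j, (X - C (r j)) + C B)) * v (eval x T) ≤ exp (-(N : ℤ)) * γ :=
          mul_le_mul' hG (hγ x hx1)
      _ < V0 * γ⁻¹ * γ := mul_lt_mul_of_pos_right hN1 (zero_lt_iff.2 hγ0)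
      _ = V0 := by rw [mul_assoc, inv_mul_cancel₀ hγ0, mul_one]
  have h3 : (w.eval x) ^ ℓ = (C c * (C c' * ∏ j, (X - C (r j)) ^ e j)).eval x +
      (-((C c * (C c' * ∏ j, (X - C (r j)) ^ e j)).eval x - (w.eval x) ^ ℓ)) := by ring
  have h4 : v ((w.eval x) ^ ℓ) = V0 := by
    rw [h3, Valuation.map_add_eq_of_lt_left, hA]
    rw [Valuation.map_neg, hA]
    exact hdiff
  rw [← h4, map_pow]

end near

end Pool.Agent.Y888.FT
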