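import Pool.Agent.Y160.FT.Stmts2
import Pool.Agent.Y888.FT.NP
import Pool.Agent.Y888.FT.Val

/-!
# Conditions at primes which imply `Cond` (job FT-Ex1, helper888)
-/

set_option autoImplicit false
set_option linter.all false

namespace Pool.Agent.Y888.FT

open Polynomial IsDedekindDomain WithZero

section congr

variable {k : Type} [Field k] {v : Valuation k (WithZero (Multiplicative ℤ))} {m : ℕ}
  (r : Fin m → k) (i j t : Fin m) (hij : i ≠ j) (hti : t ≠ i) (htj : t ≠ j)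
  (h1 : v (r i - r j) = exp (-1 : ℤ))
  (h0 : ∀ a b, a ≠ b → ¬ (a = i ∧ b = j) → ¬ (a = j ∧ b = i) → v (r a - r b) = 1)

include hij h1 h0 in
theorem prod_i (f : Fin m → ℕ) :
    ∏ a ∈ Finset.univ.erase i, v (r i - r a) ^ f a = exp (-1 : ℤ) ^ f j := by
  rw [Finset.prod_eq_single j]
  · rw [h1]
  · intro b hb hbj
    have hbi := Finset.ne_of_mem_erase hb
    rw [h0 i b (Ne.symm hbi) (fun h => hbj h.2) (fun h => hij h.1), one_pow]
  · intro h
    exact absurd (Finset.mem_erase.2 ⟨Ne.symm hij, Finset.mem_univ _⟩) h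

include hti htj h0 in
theorem prod_t (f : Fin m → ℕ) : ∏ a ∈ Finset.univ.erase t, v (r t - r a) ^ f a = 1 := by
  refine Finset.prod_eq_one fun a ha => ?_
  rw [h0 t a (Ne.symm (Finset.ne_of_mem_erase ha)) (fun h => hti h.1) (fun h => htj h.1), one_pow]

theorem dvd_of_log {ℓ : ℕ} {L n : ℤ} {x y : k} (hx : x ≠ 0) (hn : (ℓ : ℤ) ∣ n)
    (h : v x * exp (L + n) = v y ^ ℓ) : (ℓ : ℤ) ∣ log (v x) + L := by
  have hvx : v x ≠ 0 := (v.ne_zero_iff).2 hx
  have h2 := congrArg log h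
  rw [log_mul hvx exp_ne_zero, log_exp, log_pow, nsmul_eq_mul] at h2
  have h3 : log (v x) + L = (ℓ : ℤ) * log (v y) - n := by linarith
  rw [h3]
  exact dvd_sub (dvd_mul_right _ _) hn

include hij hti htj h1 h0 in
theorem cong_step (hr : ∀ a, v (r a) ≤ 1) {B : k} {n : ℕ} (hB : v B = exp (-(n : ℤ))) (hn : 4 ≤ n)
    {ℓ : ℕ} (hℓ : ℓ ∣ n) (c c' : k) (hc : c ≠ 0) (hc' : c' ≠ 0) (e : Fin m → ℕ) (w : k[X])
    (hd : (∏ j, (X - C (r j))) + C B ∣ C c * (C c' * ∏ j, (X - C (r j)) ^ e j) - w ^ ℓ) :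
    (ℓ : ℤ) ∣ (e i : ℤ) - e j := by
  have hB0 : B ≠ 0 := (v.ne_zero_iff).1 (by rw [hB]; exact exp_ne_zero)
  have hB4 : v B ≤ exp (-4 : ℤ) := by
    rw [hB, exp_le_exp]
    omega
  have hcc : c * c' ≠ 0 := mul_ne_zero hc hc'
  have hexp : exp (-1 : ℤ) ≤ 1 := by
    rw [← exp_zero, exp_le_exp]
    norm_num
  -- index `i`
  have hκi : v (∏ a ∈ Finset.univ.erase i, (r i - r a)) = exp (-1 : ℤ) := by
    have := prod_i (v := v) r i j hij h1 h0 (fun _ => 1)
    simp only [pow_one] at this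
    rw [map_prod, this]
  have hii : ∀ a, a ≠ i → exp (-1 : ℤ) ≤ v (r i - r a) := by
    intro a ha
    by_cases haj : a = j
    · rw [haj, h1]
    · rw [h0 i a (Ne.symm ha) (fun h => haj h.2) (fun h => hij h.1)]
      exact hexp
  obtain ⟨y, hy⟩ := key r i hr hii hκi.ge hB4 hB0 c c' hc hc' e w hd
  rw [hκi, hB, prod_i (v := v) r i j hij h1 h0 e] at hy
  have e1 : (exp (-(n : ℤ)) * (exp (-1 : ℤ))⁻¹) ^ e i * exp (-1 : ℤ) ^ e j =
      exp (((e i : ℤ) - e j) + -((n : ℤ) * e i)) := by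
    rw [← exp_neg, ← exp_add, ← exp_nsmul, ← exp_nsmul, ← exp_add]
    congr 1
    simp only [nsmul_eq_mul]
    ring
  rw [mul_assoc, e1] at hy
  have hnl : (ℓ : ℤ) ∣ -((n : ℤ) * e i) := by
    rw [dvd_neg]
    exact Dvd.dvd.mul_right (Int.natCast_dvd_natCast.2 hℓ) _
  have g1 := dvd_of_log hcc hnl hy
  -- index `t`
  have hκt : v (∏ a ∈ Finset.univ.erase t, (r t - r a)) = 1 := by
    have := prod_t (v := v) r i j t hti htj h0 (fun _ => 1)
    simp only [pow_one] at this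
    rw [map_prod, this]
  have htt : ∀ a, a ≠ t → exp (-1 : ℤ) ≤ v (r t - r a) := by
    intro a ha
    rw [h0 t a (Ne.symm ha) (fun h => hti h.1) (fun h => htj h.1)]
    exact hexp
  obtain ⟨z, hz⟩ := key r t hr htt (by rw [hκt]; exact hexp) hB4 hB0 c c' hc hc' e w hd
  rw [hκt, hB, prod_t (v := v) r i j t hti htj h0 e, mul_one, inv_one, mul_one] at hz
  have e2 : exp (-(n : ℤ)) ^ e t = exp (0 + -((n : ℤ) * e t)) := by
    rw [← exp_nsmul]
    congr 1
    simp only [nsmul_eq_mul]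
    ring
  rw [e2] at hz
  have hnl' : (ℓ : ℤ) ∣ -((n : ℤ) * e t) := by
    rw [dvd_neg]
    exact Dvd.dvd.mul_right (Int.natCast_dvd_natCast.2 hℓ) _
  have g2 := dvd_of_log hcc hnl' hz
  have g3 := dvd_sub g1 g2
  have e3 : log (v (c * c')) + ((e i : ℤ) - e j) - (log (v (c * c')) + 0) = (e i : ℤ) - e j := by ring
  rwa [e3] at g3

/-- the residue symbols at the linear factors -/
theorem redei_rel {ℓ : ℕ} (hinj : Function.Injective r) (c c' : k) (hc : c ≠ 0) (hc' : c' ≠ 0)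
    (e : Fin m → ℕ)
    (h : ∃ (e' : ℕ) (w : k[X]), ¬ (X - C (r i)) ∣ w ∧ (X - C (r i)) ^ (e' + 1) ∣
      C c * (C c' * ∏ j, (X - C (r j)) ^ e j) - (∏ j, (X - C (r j))) ^ e' * w ^ ℓ) :
    ∃ y : k, v (c * c') * ∏ a ∈ Finset.univ.erase i, v (r i - r a) ^ e a =
      (∏ a ∈ Finset.univ.erase i, v (r i - r a) ^ e i) * v y ^ ℓ := by
  classical
  obtain ⟨e', w, hw, hdv⟩ := h
  set p : k[X] := X - C (r i) with hp
  have hpp : Prime p := prime_X_sub_C (r i)
  set U : k[X] := C c * C c' * ∏ a ∈ Finset.univ.erase i, (X - C (r a)) ^ e a with hU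
  set V : k[X] := (∏ a ∈ Finset.univ.erase i, (X - C (r a))) ^ e' * w ^ ℓ with hV
  have hpa : ∀ a ∈ Finset.univ.erase i, ¬ p ∣ X - C (r a) := by
    intro a ha hd
    rw [hp, dvd_iff_isRoot] at hd
    rw [IsRoot.def, eval_sub, eval_X, eval_C, sub_eq_zero] at hd
    exact Finset.ne_of_mem_erase ha (hinj hd).symm
  have hpc : ∀ z : k, z ≠ 0 → ¬ p ∣ C z := fun z hz hd =>
    hpp.not_unit (isUnit_of_dvd_unit hd (isUnit_C.2 hz.isUnit))
  have hpU : ¬ p ∣ U := by
    intro hd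
    rcases hpp.dvd_or_dvd hd with h1 | h1
    · rcases hpp.dvd_or_dvd h1 with h2 | h2
      · exact hpc c hc h2
      · exact hpc c' hc' h2
    · obtain ⟨a, ha, h2⟩ := hpp.exists_mem_finset_dvd h1
      exact hpa a ha (hpp.dvd_of_dvd_pow h2)
  have hpV : ¬ p ∣ V := by
    intro hd
    rcases hpp.dvd_or_dvd hd with h1 | h1
    · obtain ⟨a, ha, h2⟩ := hpp.exists_mem_finset_dvd (hpp.dvd_of_dvd_pow h1)
      exact hpa a ha h2
    · exact hw (hpp.dvd_of_dvd_pow h1)
  have e1 : C c * (C c' * ∏ j, (X - C (r j)) ^ e j) - (∏ j, (X - C (r j))) ^ e' * w ^ ℓ =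
      p ^ e i * U - p ^ e' * V := by
    rw [← Finset.mul_prod_erase Finset.univ _ (Finset.mem_univ i),
      ← Finset.mul_prod_erase Finset.univ (fun j => X - C (r j)) (Finset.mem_univ i), hU, hV, mul_pow]
    ring
  rw [e1] at hdv
  obtain ⟨h2, h3⟩ := ord_eq hpp hpU hpV hdv
  refine ⟨w.eval (r i), ?_⟩
  rw [hp, dvd_iff_isRoot, IsRoot.def, eval_sub, sub_eq_zero] at h3
  have h4 := congrArg v h3
  rw [hU, hV] at h4
  simp only [eval_mul, eval_C, eval_pow, eval_prod, eval_sub, eval_X, map_mul, map_pow,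
    map_prod] at h4
  rw [map_mul, h4, ← h2, ← Finset.prod_pow]

include hij hti htj h1 h0 in
theorem cong_redei {ℓ : ℕ} (hinj : Function.Injective r) (c c' : k) (hc : c ≠ 0) (hc' : c' ≠ 0)
    (e : Fin m → ℕ)
    (h : ∀ i, ∃ (e' : ℕ) (w : k[X]), ¬ (X - C (r i)) ∣ w ∧ (X - C (r i)) ^ (e' + 1) ∣
      C c * (C c' * ∏ j, (X - C (r j)) ^ e j) - (∏ j, (X - C (r j))) ^ e' * w ^ ℓ) :
    (ℓ : ℤ) ∣ (e i : ℤ) - e j := by
  have hcc : c * c' ≠ 0 := mul_ne_zero hc hc'
  obtain ⟨y, hy⟩ := redei_rel (v := v) r i hinj c c' hc hc' e (h i)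
  rw [prod_i (v := v) r i j hij h1 h0 e, prod_i (v := v) r i j hij h1 h0 (fun _ => e i)] at hy
  obtain ⟨z, hz⟩ := redei_rel (v := v) r t hinj c c' hc hc' e (h t)
  rw [prod_t (v := v) r i j t hti htj h0 e, prod_t (v := v) r i j t hti htj h0 (fun _ => e t),
    mul_one, one_mul] at hz
  have g1 : (ℓ : ℤ) ∣ log (v (c * c')) + ((e i : ℤ) - e j) := by
    refine dvd_of_log (n := 0) hcc (dvd_zero _) (y := y) ?_
    have h5 : exp ((e i : ℤ) - e j + 0) = exp (-1 : ℤ) ^ e j * (exp (-1 : ℤ) ^ e i)⁻¹ := by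
      rw [← exp_nsmul, ← exp_nsmul, ← exp_neg, ← exp_add]
      congr 1
      simp only [nsmul_eq_mul]
      ring
    rw [h5, ← mul_assoc, hy, mul_comm, ← mul_assoc, inv_mul_cancel₀ (pow_ne_zero _ exp_ne_zero),
      one_mul]
  have g2 : (ℓ : ℤ) ∣ log (v (c * c')) + 0 := by
    refine dvd_of_log (n := 0) hcc (dvd_zero _) (y := z) ?_
    rw [add_zero, exp_zero, mul_one, hz]
  have g3 := dvd_sub g1 g2
  have e3 : log (v (c * c')) + ((e i : ℤ) - e j) - (log (v (c * c')) + 0) = (e i : ℤ) - e j := by ring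
  rwa [e3] at g3

end congr

/-! ### The nested constants -/

/-- the nested expression over `O` -/
def EO {O : Type} [CommRing O] (ℓ : ℕ) : List (O × O) → O → O
  | [], T => T
  | (b, a) :: l, T => b + a * (EO ℓ l T) ^ ℓ

open Pool.Agent.Y160.FT in
theorem EE_map {O k : Type} [CommRing O] [Field k] [Algebra O k] (ℓ : ℕ) (l : List (O × O)) (T : O) :
    EE ℓ (RingHom.id k[X]) (l.map fun x => (C (algebraMap O k x.1), algebraMap O k x.2))
      (C (algebraMap O k T)) = C (algebraMap O k (EO ℓ l T)) := by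
  induction l with
  | nil => rfl
  | cons x l ih =>
    obtain ⟨b, a⟩ := x
    rw [List.map_cons]
    simp only [EE, EO]
    rw [ih]
    simp only [RingHom.id_apply, map_add, map_mul, map_pow]

section EOv

variable {O : Type} [CommRing O] [IsDedekindDomain O] (v : HeightOneSpectrum O)

theorem EO_small {ℓ : ℕ} (hℓ : 0 < ℓ) (l : List (O × O)) (T : O)
    (hl : ∀ x ∈ l, v.intValuation x.1 ≤ exp (-2 : ℤ)) (hT : v.intValuation T ≤ exp (-2 : ℤ)) :
    v.intValuation (EO ℓ l T) ≤ exp (-2 : ℤ) := by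
  induction l with
  | nil => exact hT
  | cons x l ih =>
    obtain ⟨b, a⟩ := x
    simp only [EO]
    have h1 := ih fun x hx => hl x (List.mem_cons_of_mem _ hx)
    refine (Valuation.map_add _ _ _).trans (max_le (hl (b, a) List.mem_cons_self) ?_)
    rw [map_mul, map_pow]
    have h2 : v.intValuation (EO ℓ l T) ≤ 1 := v.intValuation_le_one _
    calc v.intValuation a * v.intValuation (EO ℓ l T) ^ ℓ ≤ 1 * v.intValuation (EO ℓ l T) :=
          mul_le_mul' (v.intValuation_le_one _) (pow_le_of_le_one zero_le h2 hℓ.ne')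
      _ ≤ exp (-2 : ℤ) := by rw [one_mul]; exact h1

theorem EO_one {ℓ : ℕ} (hℓ : 0 < ℓ) (l₁ : List (O × O)) (b a : O) (l₂ : List (O × O))
    (h : ∀ b' a' l', l₁ ++ (b, a) :: l₂ = (b', a') :: l' → v.intValuation b' = exp (-1 : ℤ) ∧
      ∀ x ∈ l', v.intValuation x.1 ≤ exp (-2 : ℤ)) :
    v.intValuation (EO ℓ l₁ b) = exp (-1 : ℤ) := by
  cases l₁ with
  | nil => exact (h b a l₂ rfl).1
  | cons x l₁ =>
    obtain ⟨b', a'⟩ := x
    obtain ⟨h1, h2⟩ := h b' a' (l₁ ++ (b, a) :: l₂) rfl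
    simp only [EO]
    rw [Valuation.map_add_eq_of_lt_left, h1]
    rw [h1, map_mul, map_pow]
    have h3 : v.intValuation (EO ℓ l₁ b) ≤ exp (-2 : ℤ) :=
      EO_small v hℓ l₁ b (fun x hx => h2 x (List.mem_append_left _ hx))
        (h2 (b, a) (List.mem_append_right _ List.mem_cons_self))
    have h4 : v.intValuation (EO ℓ l₁ b) ≤ 1 := v.intValuation_le_one _
    calc v.intValuation a' * v.intValuation (EO ℓ l₁ b) ^ ℓ ≤ 1 * v.intValuation (EO ℓ l₁ b) :=
          mul_le_mul' (v.intValuation_le_one _) (pow_le_of_le_one zero_le h4 hℓ.ne')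
      _ ≤ exp (-2 : ℤ) := by rw [one_mul]; exact h3
      _ < exp (-1 : ℤ) := by rw [exp_lt_exp]; norm_num

end EOv

open Pool.Agent.Y160.FT in
theorem stEx1 : StEx1 := by
  classical
  intro ℓ q s m O k _ _ _ _ _ ρ Q P l hℓ hq hco hm3 hQρ hP1 hP0 hne hl
  set r : Fin m → k := fun j => algebraMap O k (ρ j) with hrdef
  set g : k[X] := ∏ j, (X - C (r j)) with hg
  set F : O × O → k[X] × k := fun x => (C (algebraMap O k x.1), algebraMap O k x.2) with hF
  have hℓ0 : 0 < ℓ := hℓ.pos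
  have hq0 : 0 < q := by rw [hq]; exact pow_pos hℓ0 _
  have hq2 : 2 ≤ q := by
    rw [hq, pow_succ]
    calc 2 ≤ ℓ := hℓ.two_le
      _ ≤ ℓ ^ s * ℓ := Nat.le_mul_of_pos_left _ (pow_pos hℓ0 _)
  have hℓq : ℓ ∣ q := by rw [hq, pow_succ]; exact dvd_mul_left _ _
  have hinjO : Function.Injective (algebraMap O k) := IsFractionRing.injective O k
  have hgm : g.Monic := monic_prod_of_monic _ _ fun j _ => monic_X_sub_C _
  have hgd : g.natDegree = m := by
    rw [hg, natDegree_prod_of_monic _ _ fun j _ => monic_X_sub_C _]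
    simp
  have hinj : Function.Injective r := by
    intro i j hij
    by_contra hne'
    have h1 := hP1 i j hne'
    have h2 : ρ i = ρ j := hinjO hij
    rw [h2, sub_self, map_zero] at h1
    exact exp_ne_zero h1.symm
  have hsep : g.Separable := by
    rw [hg]
    exact separable_prod_X_sub_C_iff.2 hinj
  -- the valuations of `k`
  have hv1 : ∀ (i j : Fin m), i ≠ j → (P i j).valuation k (r i - r j) = exp (-1 : ℤ) := by
    intro i j hij
    rw [hrdef]
    simp only
    rw [← map_sub, HeightOneSpectrum.valuation_of_algebraMap]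
    exact hP1 i j hij
  have hv0 : ∀ (i j : Fin m), i ≠ j → ∀ a b, a ≠ b → ¬ (a = i ∧ b = j) → ¬ (a = j ∧ b = i) →
      (P i j).valuation k (r a - r b) = 1 := by
    intro i j hij a b hab h1 h2
    rw [hrdef]
    simp only
    rw [← map_sub, HeightOneSpectrum.valuation_of_algebraMap]
    exact hP0 i j a b hij hab h1 h2
  have hvr : ∀ (v : HeightOneSpectrum O) a, v.valuation k (r a) ≤ 1 := by
    intro v a
    rw [hrdef]
    simp only
    rw [HeightOneSpectrum.valuation_of_algebraMap]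
    exact v.intValuation_le_one _
  have hthird : ∀ i j : Fin m, ∃ t : Fin m, t ≠ i ∧ t ≠ j := by
    intro i j
    have hcard : ({i, j} : Finset (Fin m)).card < Fintype.card (Fin m) := by
      rw [Fintype.card_fin]
      exact lt_of_le_of_lt (Finset.card_le_two) (by omega)
    obtain ⟨t, ht⟩ := Finset.exists_mem_notMem_of_card_lt_card (s := {i, j}) (t := Finset.univ)
      (by rw [Finset.card_univ]; exact hcard)
    have ht2 := ht.2
    rw [Finset.mem_insert, Finset.mem_singleton, not_or] at ht2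
    exact ⟨t, ht2.1, ht2.2⟩
  -- decomposition of the list
  have hdec : ∀ (l₁' : List (k[X] × k)) (b' : k[X]) (a' : k) (l₂' : List (k[X] × k)),
      l.map F = l₁' ++ (b', a') :: l₂' → ∃ (l₁ : List (O × O)) (b a : O) (l₂ : List (O × O)),
        l = l₁ ++ (b, a) :: l₂ ∧ l₁' = l₁.map F ∧ b' = C (algebraMap O k b) ∧
          a' = algebraMap O k a := by
    intro l₁' b' a' l₂' h
    obtain ⟨l₁, l₃, h1, h2, h3⟩ := List.map_eq_append_iff.1 h
    obtain ⟨x, l₂, h4, h5, h6⟩ := List.map_eq_cons_iff.1 h3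
    refine ⟨l₁, x.1, x.2, l₂, by rw [h1, h4], h2.symm, ?_, ?_⟩
    · have := congrArg Prod.fst h5
      exact this.symm
    · have := congrArg Prod.snd h5
      exact this.symm
  -- the constant `β`
  have hβ : ∀ (l₁ : List (O × O)) (b a : O) (l₂ : List (O × O)), l = l₁ ++ (b, a) :: l₂ →
      Q.intValuation (EO ℓ l₁ b) = exp (-1 : ℤ) ∧
      ∀ i j, i ≠ j → (P i j).intValuation (EO ℓ l₁ b) ≤ exp (-2 : ℤ) := by
    intro l₁ b a l₂ h
    constructor
    · refine EO_one Q hℓ0 l₁ b a l₂ fun b' a' l' h' => ?_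
      obtain ⟨h1, h2, h3⟩ := hl b' a' l' (h.trans h')
      exact ⟨h1, fun x hx => (h3 x hx).1⟩
    · intro i j hij
      have hall : ∀ x ∈ l, (P i j).intValuation x.1 ≤ exp (-2 : ℤ) := by
        intro x hx
        cases hlc : l with
        | nil => rw [hlc] at hx; exact absurd hx List.not_mem_nil
        | cons y l' =>
          obtain ⟨b', a'⟩ := y
          obtain ⟨h1, h2, h3⟩ := hl b' a' l' hlc
          rw [hlc] at hx
          rcases List.mem_cons.1 hx with h4 | h4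
          · rw [h4]
            exact h2 i j hij
          · exact (h3 x h4).2 i j hij
      refine EO_small (P i j) hℓ0 l₁ b (fun x hx => hall x ?_) (hall (b, a) ?_)
      · rw [h]
        exact List.mem_append_left _ hx
      · rw [h]
        exact List.mem_append_right _ List.mem_cons_self
  have hB : ∀ (l₁ : List (O × O)) (b : O), (EE ℓ (RingHom.id k[X]) (l₁.map F)
      (C (algebraMap O k b))) ^ q = C ((algebraMap O k (EO ℓ l₁ b)) ^ q) := by
    intro l₁ b
    rw [hF, EE_map, map_pow]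
  -- irreducibility
  have hirr : ∀ (l₁ : List (O × O)) (b a : O) (l₂ : List (O × O)), l = l₁ ++ (b, a) :: l₂ →
      Irreducible (g + C ((algebraMap O k (EO ℓ l₁ b)) ^ q)) := by
    intro l₁ b a l₂ h
    set β := algebraMap O k (EO ℓ l₁ b) with hβd
    have hvβ : Q.valuation k β = exp (-1 : ℤ) := by
      rw [hβd, HeightOneSpectrum.valuation_of_algebraMap]
      exact (hβ l₁ b a l₂ h).1
    have hvβq : Q.valuation k (β ^ q) = exp (-(q : ℤ)) := by
      rw [map_pow, hvβ, ← exp_nsmul]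
      congr 1
      simp
    have hm1 : 0 < m := by omega
    have hdeg : (C (β ^ q) : k[X]).degree < g.degree := by
      rw [degree_eq_natDegree hgm.ne_zero, hgd]
      refine lt_of_le_of_lt degree_C_le ?_
      exact_mod_cast hm1
    have hmon : (g + C (β ^ q)).Monic := hgm.add_of_left hdeg
    have hnd : (g + C (β ^ q)).natDegree = m := by
      rw [natDegree_add_C, hgd]
    have hγ1 : exp (-(q : ℤ)) ≤ (1 : WithZero (Multiplicative ℤ)) := by
      rw [← exp_zero, exp_le_exp]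
      omega
    have hvrq : ∀ a, Q.valuation k (r a) ≤ exp (-(q : ℤ)) := by
      intro a
      rw [hrdef]
      simp only
      rw [HeightOneSpectrum.valuation_of_algebraMap]
      exact hQρ a
    have hcoef : ∀ j ≤ m, Q.valuation k (g.coeff j) ≤ exp (-(q : ℤ)) ^ (m - j) := by
      intro j hj
      have h1 := coeff_prod (v := Q.valuation k) hγ1 r hvrq Finset.univ j
      rw [Finset.card_univ, Fintype.card_fin, ← hg] at h1
      have h2 : exp (-(q : ℤ)) ^ m = exp (-(q : ℤ)) ^ (m - j) * exp (-(q : ℤ)) ^ j := by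
        rw [← pow_add, Nat.sub_add_cancel hj]
      rw [h2] at h1
      exact le_of_mul_le_mul_right h1 (zero_lt_iff.2 (pow_ne_zero _ exp_ne_zero))
    refine irr_of_np (v := Q.valuation k) (q := q) hmon ?_ hq0 ?_ ?_
    · rw [hnd, hq]
      exact Nat.Coprime.pow_left _ hco
    · rw [coeff_add, coeff_C_zero, Valuation.map_add_eq_of_lt_right, hvβq]
      rw [hvβq]
      refine lt_of_le_of_lt (hcoef 0 (Nat.zero_le _)) ?_
      rw [Nat.sub_zero, ← exp_nsmul, exp_lt_exp, nsmul_eq_mul]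
      have : (3 : ℤ) ≤ m := by exact_mod_cast hm3
      have hq' : (0 : ℤ) < q := by exact_mod_cast hq0
      nlinarith
    · intro j hj h0
      rw [hnd] at hj ⊢
      rw [coeff_add, coeff_C, if_neg h0, add_zero]
      exact hcoef j hj
  have hm0 : 0 < m := by omega
  have hVV : ∀ A : k[X], VV g A →
      ∃ (c' : k) (e : Fin m → ℕ), c' ≠ 0 ∧ A = C c' * ∏ j, (X - C (r j)) ^ e j := by
    rintro A ⟨N, hN⟩
    exact fac r N A hN
  refine ⟨hgm, hsep, ?_, ?_, ?_, ?_, ?_, ?_, ?_⟩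
  · rw [hgd]
    exact hco
  · intro c A hc hA hp
    obtain ⟨c', e, hc', rfl⟩ := hVV A hA
    refine triv hm0 r c' hc' e fun i j hij => ?_
    obtain ⟨t, ht1, ht2⟩ := hthird i j
    refine cong_redei (v := (P i j).valuation k) r i j t hij ht1 ht2 (hv1 i j hij) (hv0 i j hij)
      hinj c c' hc hc' e fun i' => ?_
    obtain ⟨e', w, h1, h2⟩ := hp (X - C (r i')) (monic_X_sub_C _) (irreducible_X_sub_C _)
      (Finset.dvd_prod_of_mem _ (Finset.mem_univ i'))
    exact ⟨e', w, h1, h2⟩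
  · intro l₁' b' a' l₂' h
    obtain ⟨l₁, b, a, l₂, h1, h2, h3, h4⟩ := hdec l₁' b' a' l₂' h
    rw [h4]
    intro h5
    rw [← map_zero (algebraMap O k)] at h5
    exact hne (b, a) (by rw [h1]; exact List.mem_append_right _ List.mem_cons_self) (hinjO h5)
  · intro l₁' b' a' l₂' h
    obtain ⟨l₁, b, a, l₂, h1, h2, h3, h4⟩ := hdec l₁' b' a' l₂' h
    rw [h3, natDegree_C, mul_zero, hgd]
    exact hm0
  · intro l₁' b' a' l₂' h
    obtain ⟨l₁, b, a, l₂, h1, h2, h3, h4⟩ := hdec l₁' b' a' l₂' h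
    rw [h2, h3, hB]
    exact hirr l₁ b a l₂ h1
  · intro l₁' b' a' l₂' h
    obtain ⟨l₁, b, a, l₂, h1, h2, h3, h4⟩ := hdec l₁' b' a' l₂' h
    rw [h2, h3, hB]
    rw [separable_iff_derivative_ne_zero (hirr l₁ b a l₂ h1), derivative_add, derivative_C, add_zero]
    intro h5
    have h6 := hsep
    rw [Polynomial.Separable, h5, isCoprime_zero_right] at h6
    have h7 := natDegree_eq_zero_of_isUnit h6
    rw [hgd] at h7
    omega
  · intro l₁' b' a' l₂' h c A w hc hA hd
    obtain ⟨l₁, b, a, l₂, h1, h2, h3, h4⟩ := hdec l₁' b' a' l₂' h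
    rw [h2, h3, hB] at hd
    obtain ⟨c', e, hc', rfl⟩ := hVV A hA
    refine triv hm0 r c' hc' e fun i j hij => ?_
    obtain ⟨t, ht1, ht2⟩ := hthird i j
    set β := EO ℓ l₁ b with hβd
    have hβ0 : β ≠ 0 := by
      intro h5
      have h6 := (hβ l₁ b a l₂ h1).1
      rw [← hβd, h5, map_zero] at h6
      exact exp_ne_zero h6.symm
    have hvβ := (hβ l₁ b a l₂ h1).2 i j hij
    rw [← hβd] at hvβ
    have hvβ0 : (P i j).intValuation β ≠ 0 := (P i j).intValuation_ne_zero β hβ0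
    obtain ⟨n0, hn0⟩ : ∃ n0 : ℕ, (P i j).intValuation β = exp (-(n0 : ℤ)) := by
      have h5 : log ((P i j).intValuation β) ≤ 0 := by
        rw [log_le_iff_le_exp hvβ0, exp_zero]
        exact (P i j).intValuation_le_one _
      refine ⟨(-log ((P i j).intValuation β)).toNat, ?_⟩
      rw [Int.toNat_of_nonneg (by omega), neg_neg, exp_log hvβ0]
    have hn2 : 2 ≤ n0 := by
      rw [hn0, exp_le_exp] at hvβ
      omega
    refine cong_step (v := (P i j).valuation k) r i j t hij ht1 ht2 (hv1 i j hij) (hv0 i j hij)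
      (hvr (P i j)) (B := (algebraMap O k β) ^ q) (n := q * n0) ?_ ?_ ?_ c c' hc hc' e w hd
    · rw [map_pow, HeightOneSpectrum.valuation_of_algebraMap, hn0, ← exp_nsmul]
      congr 1
      simp
    · calc 4 = 2 * 2 := rfl
        _ ≤ q * n0 := Nat.mul_le_mul hq2 hn2
    · exact Dvd.dvd.mul_right hℓq _

end Pool.Agent.Y888.FT
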